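import Pool.Agent.Mg.F630a92.G2c6f68

namespace Pool.Agent.Results.MP_630a92_gt.CircleInvariant

open Pool.Agent.MP_630a92_gt
open scoped ContDiff

/-- A smooth family of symplectomorphisms of `ℂ^n` with uniform compact support that commute with
a circle action conjugate to the rotation of one coordinate is joined to the identity by a smooth
family of symplectic isotopies with uniform compact support, through maps commuting with the
action, and constant at parameters where the map is the identity. -/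
theorem result (n : ℕ) (j : Fin n) (χ : (Fin n → ℂ) → Fin n → ℂ) (hχ : IsSymp χ) (P : Type)
    [NormedAddCommGroup P] [NormedSpace ℝ P] (φ : P → (Fin n → ℂ) → Fin n → ℂ)
    (hφ : ContDiff ℝ ∞ fun q : P × (Fin n → ℂ) => φ q.1 q.2)
    (h1 : ∀ p, IsSymp (φ p) ∧ Commutes χ j (φ p)) (K : Set (Fin n → ℂ)) (hK : IsCompact K)
    (h2 : ∀ p, ∀ z ∉ K, φ p z = z) :
    ∃ Φ : ℝ → P → (Fin n → ℂ) → Fin n → ℂ,
      (ContDiff ℝ ∞ fun q : ℝ × P × (Fin n → ℂ) => Φ q.1 q.2.1 q.2.2) ∧
      (∀ p, Φ 0 p = id) ∧ Φ 1 = φ ∧ (∀ t p, IsSymp (Φ t p) ∧ Commutes χ j (Φ t p)) ∧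
      (∀ t p, φ p = id → Φ t p = id) ∧
      ∃ K' : Set (Fin n → ℂ), IsCompact K' ∧ ∀ t p, ∀ z ∉ K', Φ t p z = z :=
  main j hχ hφ h1 hK h2

end Pool.Agent.Results.MP_630a92_gt.CircleInvariant
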