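import Pool.Agent.Mg.F630a92a.G935870

namespace Pool.Agent.Results.MP_630a92_gt.GromollCell

open Pool.Agent.MP_630a92_gt.BC

/-- Reduction is a bijection from homotopy classes of compactly supported families over `U` of
symplectomorphisms of `ℝ^{2m+2k}` whose leading minors of `∂P/∂p` vanish nowhere onto homotopy
classes of compactly supported families over `U × ℝ^{2k}` of symplectomorphisms of `ℝ^{2m}`. -/
theorem result (m k : ℕ) (U : Type) [NormedAddCommGroup U] [NormedSpace ℝ U]
    [FiniteDimensional ℝ U] :
    Bij (E := R2 m × R2 k) (P := U) (E' := R2 m) (P' := U × R2 k) Cell (IsSymp om) Red :=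
  ⟨fun _ => red_ex, fun _ _ _ _ => red_hom, fun _ => red_onto⟩

end Pool.Agent.Results.MP_630a92_gt.GromollCell
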