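import Pool.Agent.MP_630a92_gt.Osc.Main

namespace Pool.Agent.Results.MP_630a92_gt.MeanOscillation

open Pool.Agent.MP_630a92_gt.Osc MeasureTheory
open scoped ContDiff RealInnerProductSpace

/-- A compactly supported symplectomorphism whose derivative has variance less than one at every
point and scale, for an atomless compactly supported probability measure and up to linear
symplectic maps that may depend on the point and the scale, is joined to the identity by a
symplectic isotopy with uniform compact support. -/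
theorem result (E : Type) [NormedAddCommGroup E] [InnerProductSpace ℝ E] [FiniteDimensional ℝ E]
    [MeasurableSpace E] [BorelSpace E] (J : E →L[ℝ] E) (hJ : ∀ v, J (J v) = -v)
    (hO : ∀ u v, ⟪J u, J v⟫ = ⟪u, v⟫) (μ : Measure E) [IsProbabilityMeasure μ]
    (h0 : ∀ x, μ {x} = 0) (S : Set E) (hS : IsCompact S) (hμ : μ Sᶜ = 0) (φ : E → E)
    (hφ : IsSymp J φ) (K : Set E) (hK : IsCompact K) (h : ∀ z ∉ K, φ z = z)
    (osc : ∀ x, ∀ s : ℝ, 0 ≤ s → ∃ P Q, Pres J P ∧ Pres J Q ∧ ∀ u, ‖u‖ = 1 →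
      ∃ c, ∫ y, ‖Q (fderiv ℝ φ (x + s • y) (P u)) - c‖ ^ 2 ∂μ < 1) :
    ∃ Φ : ℝ → E → E, (ContDiff ℝ ∞ fun q : ℝ × E => Φ q.1 q.2) ∧ Φ 0 = id ∧ Φ 1 = φ ∧
      (∀ t, IsSymp J (Φ t)) ∧ ∃ K' : Set E, IsCompact K' ∧ ∀ t, ∀ z ∉ K', Φ t z = z :=
  main hJ hO h0 hS hμ hφ hK h osc

end Pool.Agent.Results.MP_630a92_gt.MeanOscillation
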